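import Pool.Agent.Lib.MP_bcd198_co.W.Rep

/-!
# JOB W/Cox: the triangle group as a Coxeter system of Mathlib

* `triCS`: `Tri p q = PresentedGroup (triRels p q)` and `(triM hyp).Group = PresentedGroup (triM hyp).relationsSet`
  are isomorphic: two homomorphisms by `PresentedGroup.toGroup`, mutually inverse on generators
  (`PresentedGroup.ext`).  (relations `(i,i)`: `(s_i s_i)^1`; `(i,j)`, `i ≠ j`: `(s_i s_j)^{m_ij}`; for `i > j` it is the conjugate/inverse
  of the one for `j < i`.)
* `geo_alt`: induction on `k` with `alternatingWord_succ'`, `wordProd_cons`, `geo_gen`.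
-/

set_option autoImplicit false

namespace MPbcd198.W

open Real CoxeterSystem

/-- the Coxeter matrix -/
def triM {p q : ℕ} (hyp : Hyp p q) : CoxeterMatrix (Fin 3) where
  M := Matrix.of (mm p q)
  isSymm := by
    ext i j
    fin_cases i <;> fin_cases j <;> rfl
  diagonal := by
    intro i
    fin_cases i <;> rfl
  off_diagonal := by
    have hp := hyp.hp
    have hq := hyp.hq
    intro i j h
    fin_cases i <;> fin_cases j <;> simp_all [mm] <;> omega

private theorem Cox_gen_rel (p q : ℕ) {r : FreeGroup (Fin 3)} (h : r ∈ triRels p q) :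
    PresentedGroup.mk (triRels p q) r = 1 := PresentedGroup.one_of_mem h

private theorem Cox_sq (p q : ℕ) (i : Fin 3) : gen p q i * gen p q i = 1 := by
  have h := Cox_gen_rel p q (r := FreeGroup.of i ^ 2) (by fin_cases i <;> simp [triRels])
  simpa [pow_two, gen, PresentedGroup.of] using h

private theorem Cox_inv (p q : ℕ) (i : Fin 3) : (gen p q i)⁻¹ = gen p q i := by
  rw [inv_eq_iff_mul_eq_one]
  exact Cox_sq p q i

private theorem Cox_pow {p q : ℕ} {i j : Fin 3} {n : ℕ}
    (h : (FreeGroup.of i * FreeGroup.of j) ^ n ∈ triRels p q) :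
    (gen p q i * gen p q j) ^ n = 1 := by
  have h1 := Cox_gen_rel p q h
  simpa [gen, PresentedGroup.of] using h1

private theorem Cox_pow_symm {p q : ℕ} {i j : Fin 3} {n : ℕ}
    (h : (gen p q i * gen p q j) ^ n = 1) : (gen p q j * gen p q i) ^ n = 1 := by
  have h1 : gen p q j * gen p q i = (gen p q i * gen p q j)⁻¹ := by
    rw [mul_inv_rev, Cox_inv, Cox_inv]
  rw [h1, inv_pow, h, inv_one]

private theorem Cox_lift {p q : ℕ} (hyp : Hyp p q) (i j : Fin 3) :
    (gen p q i * gen p q j) ^ (triM hyp i j) = 1 := by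
  have hself : ∀ i : Fin 3, (gen p q i * gen p q i) ^ 1 = 1 := fun i => by rw [pow_one, Cox_sq]
  have h01 : (gen p q 0 * gen p q 1) ^ p = 1 := Cox_pow (by simp [triRels])
  have h12 : (gen p q 1 * gen p q 2) ^ q = 1 := Cox_pow (by simp [triRels])
  have h02 : (gen p q 0 * gen p q 2) ^ 2 = 1 := Cox_pow (by simp [triRels])
  fin_cases i <;> fin_cases j
  · exact hself 0
  · exact h01
  · exact h02
  · exact Cox_pow_symm h01
  · exact hself 1
  · exact h12
  · exact Cox_pow_symm h02
  · exact Cox_pow_symm h12
  · exact hself 2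

private theorem Cox_rels {p q : ℕ} (hyp : Hyp p q) :
    ∀ r ∈ triRels p q, FreeGroup.lift ((triM hyp).toCoxeterSystem.simple) r = 1 := by
  intro r hr
  simp only [triRels, Set.mem_insert_iff, Set.mem_singleton_iff] at hr
  rcases hr with rfl | rfl | rfl | rfl | rfl | rfl
  · rw [map_pow, FreeGroup.lift_apply_of, pow_two, simple_mul_simple_self]
  · rw [map_pow, FreeGroup.lift_apply_of, pow_two, simple_mul_simple_self]
  · rw [map_pow, FreeGroup.lift_apply_of, pow_two, simple_mul_simple_self]
  · rw [map_pow, map_mul, FreeGroup.lift_apply_of, FreeGroup.lift_apply_of]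
    exact (triM hyp).toCoxeterSystem.simple_mul_simple_pow 0 1
  · rw [map_pow, map_mul, FreeGroup.lift_apply_of, FreeGroup.lift_apply_of]
    exact (triM hyp).toCoxeterSystem.simple_mul_simple_pow 1 2
  · rw [map_pow, map_mul, FreeGroup.lift_apply_of, FreeGroup.lift_apply_of]
    exact (triM hyp).toCoxeterSystem.simple_mul_simple_pow 0 2

theorem triCS_exists {p q : ℕ} (hyp : Hyp p q) :
    ∃ cs : CoxeterSystem (triM hyp) (Tri p q), ∀ i, cs.simple i = gen p q i := by
  set cs0 := (triM hyp).toCoxeterSystem with hcs0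
  let f : (triM hyp).Group →* Tri p q := cs0.lift ⟨gen p q, Cox_lift hyp⟩
  have hf : ∀ i, f (cs0.simple i) = gen p q i := fun i => cs0.lift_apply_simple (Cox_lift hyp) i
  let g : Tri p q →* (triM hyp).Group := PresentedGroup.toGroup (Cox_rels hyp)
  have hg : ∀ i, g (gen p q i) = cs0.simple i := fun i => PresentedGroup.toGroup.of (Cox_rels hyp)
  let e : Tri p q ≃* (triM hyp).Group := MonoidHom.toMulEquiv g f
    (PresentedGroup.ext fun i => by
      change f (g (gen p q i)) = gen p q i
      rw [hg, hf])
    (cs0.ext_simple fun i => by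
      change g (f (cs0.simple i)) = cs0.simple i
      rw [hf, hg])
  refine ⟨cs0.map e.symm, fun i => ?_⟩
  rw [map_simple]
  exact hf i

/-- the Coxeter system -/
noncomputable def triCS {p q : ℕ} (hyp : Hyp p q) : CoxeterSystem (triM hyp) (Tri p q) :=
  (triCS_exists hyp).choose

theorem triCS_simple {p q : ℕ} (hyp : Hyp p q) (i : Fin 3) :
    (triCS hyp).simple i = gen p q i :=
  (triCS_exists hyp).choose_spec i

theorem geo_alt {p q : ℕ} (hyp : Hyp p q) (s t : Fin 3) (k : ℕ) :
    geo hyp ((triCS hyp).wordProd (alternatingWord s t k)) (side p q s) =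
      dihW (side p q s) (side p q t) k := by
  induction k with
  | zero =>
    have h : alternatingWord s t 0 = [] := rfl
    rw [h, wordProd_nil, map_one]
    rfl
  | succ k ih =>
    rw [alternatingWord_succ', wordProd_cons, map_mul, LinearEquiv.mul_apply, ih, triCS_simple,
      geo_gen]
    change _ = mrefl (if Even k then side p q t else side p q s) _
    split_ifs <;> rfl

end MPbcd198.W
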