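import Pool.Agent.Lib.MP_bcd198_co.W.Stab
import Pool.Agent.Lib.MP_bcd198_co.IfD

/-!
# JOB W/Iso: the abstract tiling graph is the graph of the hyperbolic tiling

* `iso`: `g ⟨b,c⟩ ↦ geo g v0` is well defined and injective (`stab_of`, `mem_of_stab`:
  `geo g v0 = geo g' v0 ↔ g⁻¹ g' ∈ ⟨b,c⟩`), surjective (`geo_list`), maps `1` to `v0`.  Adjacency: `x ≠ y ∧ ∃ g, x = g⟨b,c⟩, y = g a ⟨b,c⟩`
  corresponds to `x ≠ y ∧ ∃ w, x = wact w v0 ∧ y = wact w (mrefl (side 0) v0)` (`g` = product of `w`; `exists_list`, `geo_list`, `geo_gen`);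
  the second alternative in the definition of `hypTiling` reduces to the first by the symmetry of `tilingGraph`.
* `forcing_iso`: if `φ : F ≃g F'`, `u' = φ u`, then `IsLocally r F u G ↔ IsLocally r F' u' G` (`φ` induces an isomorphism of the links, as
  isomorphisms preserve `edist`: `SimpleGraph.Iso.edist_eq` or prove it from walks with `Iso.reachable_iff`/`Walk.map`), so
  `LocGraph r F u n ≃ LocGraph r F' u' n` (identity on the graphs), the quotients are in bijection, and `probConnected` is the same number.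
-/

set_option autoImplicit false

namespace MPbcd198.W

private theorem Iso_geo_mul {p q : ℕ} (hyp : Hyp p q) (g h : Tri p q) (x : Fin 3 → ℝ) :
    geo hyp (g * h) x = geo hyp g (geo hyp h x) := by
  rw [map_mul]
  rfl

private theorem Iso_geo_eq {p q : ℕ} (hyp : Hyp p q) (g h : Tri p q) :
    geo hyp g v0 = geo hyp h v0 ↔ g⁻¹ * h ∈ vSub p q := by
  constructor
  · intro e
    apply mem_of_stab hyp
    rw [Iso_geo_mul, ← e, ← Iso_geo_mul, inv_mul_cancel, map_one]
    rfl
  · intro e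
    have := stab_of hyp e
    rw [Iso_geo_mul] at this
    calc geo hyp g v0 = geo hyp g (geo hyp g⁻¹ (geo hyp h v0)) := by rw [this]
      _ = geo hyp (g * g⁻¹) (geo hyp h v0) := by rw [Iso_geo_mul]
      _ = geo hyp h v0 := by rw [mul_inv_cancel, map_one]; rfl

private theorem Iso_geo_mem {p q : ℕ} (hyp : Hyp p q) (g : Tri p q) :
    ∃ w : List (Fin 3), geo hyp g v0 = wact p q w v0 := by
  obtain ⟨w, hw⟩ := exists_list p q g
  exact ⟨w, by rw [← hw, geo_list]⟩

private noncomputable def Iso_f {p q : ℕ} (hyp : Hyp p q) (x : Tri p q ⧸ vSub p q) :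
    HVertex p q :=
  Quotient.lift (s := QuotientGroup.leftRel (vSub p q))
    (fun g => (⟨geo hyp g v0, Iso_geo_mem hyp g⟩ : HVertex p q))
    (fun a b h => by
      apply Subtype.ext
      exact (Iso_geo_eq hyp a b).2 (QuotientGroup.leftRel_apply.1 h)) x

private theorem Iso_f_coe {p q : ℕ} (hyp : Hyp p q) (g : Tri p q) :
    (Iso_f hyp (g : Tri p q ⧸ vSub p q)).1 = geo hyp g v0 := rfl

private theorem Iso_f_inj {p q : ℕ} (hyp : Hyp p q) : Function.Injective (Iso_f hyp) := by
  intro x y h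
  induction x using QuotientGroup.induction_on with
  | H g =>
    induction y using QuotientGroup.induction_on with
    | H g' =>
      have := congrArg Subtype.val h
      rw [Iso_f_coe, Iso_f_coe] at this
      exact QuotientGroup.eq.2 ((Iso_geo_eq hyp g g').1 this)

private theorem Iso_f_surj {p q : ℕ} (hyp : Hyp p q) : Function.Surjective (Iso_f hyp) := by
  rintro ⟨x, w, rfl⟩
  refine ⟨((w.map (gen p q)).prod : Tri p q), ?_⟩
  apply Subtype.ext
  rw [Iso_f_coe, geo_list]

private theorem Iso_adj_aux {p q : ℕ} (hyp : Hyp p q) (x y : Tri p q ⧸ vSub p q) :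
    (∃ g : Tri p q, x = (g : Tri p q ⧸ vSub p q) ∧
      y = ((g * gen p q 0 : Tri p q) : Tri p q ⧸ vSub p q)) ↔
    ∃ w : List (Fin 3), (Iso_f hyp x).1 = wact p q w v0 ∧
      (Iso_f hyp y).1 = wact p q w (mrefl (side p q 0) v0) := by
  constructor
  · rintro ⟨g, rfl, rfl⟩
    obtain ⟨w, hw⟩ := exists_list p q g
    refine ⟨w, ?_, ?_⟩
    · rw [Iso_f_coe, ← hw, geo_list]
    · rw [Iso_f_coe, Iso_geo_mul, ← hw, geo_list, geo_gen]
  · rintro ⟨w, h1, h2⟩
    refine ⟨(w.map (gen p q)).prod, ?_, ?_⟩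
    · apply Iso_f_inj hyp
      apply Subtype.ext
      rw [h1, Iso_f_coe, geo_list]
    · apply Iso_f_inj hyp
      apply Subtype.ext
      rw [h2, Iso_f_coe, Iso_geo_mul, geo_list, geo_gen]

theorem iso {p q : ℕ} (hyp : Hyp p q) :
    ∃ φ : tilingGraph p q ≃g hypTiling p q, φ (baseV p q) = hypBase p q := by
  refine ⟨⟨Equiv.ofBijective (Iso_f hyp) ⟨Iso_f_inj hyp, Iso_f_surj hyp⟩, ?_⟩, ?_⟩
  · intro x y
    change (hypTiling p q).Adj (Iso_f hyp x) (Iso_f hyp y) ↔ (tilingGraph p q).Adj x y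
    constructor
    · rintro ⟨hne, w, hw | hw⟩
      · exact ⟨fun h => hne (by rw [h]), (Iso_adj_aux hyp x y).2 ⟨w, hw⟩⟩
      · have h3 : (tilingGraph p q).Adj y x :=
          ⟨fun h => hne (by rw [h]), (Iso_adj_aux hyp y x).2 ⟨w, hw⟩⟩
        exact h3.symm
    · rintro ⟨hne, h⟩
      obtain ⟨w, hw⟩ := (Iso_adj_aux hyp x y).1 h
      exact ⟨fun h => hne (Iso_f_inj hyp h), w, Or.inl hw⟩
  · apply Subtype.ext
    change geo hyp 1 v0 = v0
    rw [map_one]
    rfl

private theorem Iso_edist_le {V W : Type} {F : SimpleGraph V} {F' : SimpleGraph W}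
    (φ : F ≃g F') (u v : V) : F'.edist (φ u) (φ v) ≤ F.edist u v := by
  unfold SimpleGraph.edist
  refine le_iInf fun p => ?_
  refine (iInf_le _ (p.map φ.toHom)).trans ?_
  simp

private theorem Iso_edist {V W : Type} {F : SimpleGraph V} {F' : SimpleGraph W}
    (φ : F ≃g F') (u v : V) : F'.edist (φ u) (φ v) = F.edist u v := by
  apply le_antisymm (Iso_edist_le φ u v)
  have := Iso_edist_le φ.symm (φ u) (φ v)
  simpa using this

private def Iso_link {V W : Type} {F : SimpleGraph V} {F' : SimpleGraph W}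
    (φ : F ≃g F') (r : ℕ) (u : V) : link r F u ≃g link r F' (φ u) where
  toEquiv := φ.toEquiv.subtypeEquiv (fun w => by
    change F.edist u w ≤ (r : ℕ∞) ↔ F'.edist (φ u) (φ w) ≤ (r : ℕ∞)
    rw [Iso_edist])
  map_rel_iff' := by
    intro a b
    exact φ.map_rel_iff'

private theorem Iso_link_centre {V W : Type} {F : SimpleGraph V} {F' : SimpleGraph W}
    (φ : F ≃g F') (r : ℕ) (u : V) :
    Iso_link φ r u (linkCentre r F u) = linkCentre r F' (φ u) := rfl

theorem isLocally_iso {V W X : Type} {F : SimpleGraph V} {F' : SimpleGraph W} (φ : F ≃g F')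
    (r : ℕ) (u : V) (G : SimpleGraph X) : IsLocally r F u G ↔ IsLocally r F' (φ u) G := by
  constructor
  · intro h v
    obtain ⟨ψ, hψ⟩ := h v
    refine ⟨(Iso_link φ r u).symm.trans ψ, ?_⟩
    rw [← Iso_link_centre]
    change ψ ((Iso_link φ r u).symm (Iso_link φ r u (linkCentre r F u))) = _
    rw [RelIso.symm_apply_apply]
    exact hψ
  · intro h v
    obtain ⟨ψ, hψ⟩ := h v
    refine ⟨(Iso_link φ r u).trans ψ, ?_⟩
    change ψ (Iso_link φ r u (linkCentre r F u)) = _
    rw [Iso_link_centre]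
    exact hψ

private noncomputable def Iso_quot {V W : Type} {F : SimpleGraph V} {F' : SimpleGraph W}
    (φ : F ≃g F') (r : ℕ) (u : V) (n : ℕ) :
    UnlabelledS r F u n ≃ UnlabelledS r F' (φ u) n :=
  Quotient.congr (Equiv.subtypeEquivRight (fun G => isLocally_iso φ r u G))
    (fun _ _ => Iff.rfl)

private theorem Iso_conn {V W : Type} {F : SimpleGraph V} {F' : SimpleGraph W}
    (φ : F ≃g F') (r : ℕ) (u : V) (n : ℕ) (x : UnlabelledS r F u n) :
    ClassConnected x ↔ ClassConnected (Iso_quot φ r u n x) := by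
  constructor
  · rintro ⟨G, rfl, hG⟩
    exact ⟨⟨G.1, (isLocally_iso φ r u G.1).1 G.2⟩, rfl, hG⟩
  · rintro ⟨G, hx, hG⟩
    refine ⟨⟨G.1, (isLocally_iso φ r u G.1).2 G.2⟩, ?_, hG⟩
    apply (Iso_quot φ r u n).injective
    rw [← hx]
    rfl

private theorem Iso_prob {V W : Type} {F : SimpleGraph V} {F' : SimpleGraph W}
    (φ : F ≃g F') (r : ℕ) (u : V) (n : ℕ) :
    probConnected r F u n = probConnected r F' (φ u) n := by
  unfold probConnected
  rw [Nat.card_congr (Iso_quot φ r u n),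
    Nat.card_congr ((Iso_quot φ r u n).subtypeEquiv (fun x => Iso_conn φ r u n x))]

theorem forcing_iso {V W : Type} {F : SimpleGraph V} {F' : SimpleGraph W} (φ : F ≃g F')
    (r : ℕ) (u : V) (h : ConnectivityForcing r F u) : ConnectivityForcing r F' (φ u) := by
  intro ε hε
  obtain ⟨N, hN⟩ := h ε hε
  refine ⟨N, fun n hn hne => ?_⟩
  rw [← Iso_prob]
  exact hN n hn ((Iso_quot φ r u n).nonempty_congr.2 hne)

/-- transfer -/
theorem forcing_hyp {p q : ℕ} (hyp : Hyp p q) (r : ℕ)
    (h : ConnectivityForcing r (tilingGraph p q) (baseV p q)) :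
    ConnectivityForcing r (hypTiling p q) (hypBase p q) := by
  obtain ⟨φ, hφ⟩ := iso hyp
  rw [← hφ]
  exact forcing_iso φ r _ h

end MPbcd198.W
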