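import Pool.Agent.Lib.MP_bcd198_co.Geo
import Pool.Agent.Lib.MP_bcd198_co.Types

/-!
# JOB W/Lin: linear algebra of the Minkowski form and dihedral formulas

`θ` with `sin θ ≠ 0`, unit vectors `α`, `β` with `mink α β = - cos θ`.
* `mink_*`, `mrefl_*`: unfold, `ring` / `Fin.sum`/`funext`, `fin_cases`.
* `dihW α β k` is the image of `α` under the alternating product of `k` reflections, the first one
  applied being the one in `β`: `dihW (k+1) = mrefl (β if k even, α if k odd) (dihW k)`.
  Formulas by induction on `k` (both parities simultaneously), with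
  `mrefl β (u • α + v • β) = u • α + (2 cos θ u - v) • β`,
  `mrefl α (u • α + v • β) = (2 cos θ v - u) • α + v • β` and
  `2 cos θ sin (x) - sin (x - θ) = sin (x + θ)`.
* `dih_pow`: `(mrefl α ∘ mrefl β)^[m] x = x` for `θ = π / m`, `2 ≤ m`.  Write `x = c₁ α + c₂ β + y`
  with `mink α y = mink β y = 0` (solve the 2x2 system; determinant `1 - cos² θ = sin² θ ≠ 0`); `y` is fixed;
  `α` is fixed by `dih_even` with `k = m` (`sin (2π + θ) = sin θ`, `sin (2π) = 0`); for `β`:
  `(s_α s_β)^m β = β` is equivalent to `(s_β s_α)^m β = β` (the inverse), which is the same statement with `α`, `β` exchanged.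
-/

set_option autoImplicit false

namespace MPbcd198.W

open Real

theorem mink_comm (x y : Fin 3 → ℝ) : mink x y = mink y x := by
  simp only [mink]; ring

theorem mink_add (x y z : Fin 3 → ℝ) : mink x (y + z) = mink x y + mink x z := by
  simp only [mink, Pi.add_apply]; ring

theorem mink_sub (x y z : Fin 3 → ℝ) : mink x (y - z) = mink x y - mink x z := by
  simp only [mink, Pi.sub_apply]; ring

theorem mink_smul (x y : Fin 3 → ℝ) (c : ℝ) : mink x (c • y) = c * mink x y := by
  simp only [mink, Pi.smul_apply, smul_eq_mul]; ring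

theorem mink_sum (x : Fin 3 → ℝ) (c : Fin 3 → ℝ) (y : Fin 3 → Fin 3 → ℝ) :
    mink x (∑ i, c i • y i) = ∑ i, c i * mink x (y i) := by
  simp only [Fin.sum_univ_three, mink_add, mink_smul]

theorem mrefl_add (n x y : Fin 3 → ℝ) : mrefl n (x + y) = mrefl n x + mrefl n y := by
  simp only [mrefl, mink_add]
  module

theorem mrefl_smul (n x : Fin 3 → ℝ) (c : ℝ) : mrefl n (c • x) = c • mrefl n x := by
  simp only [mrefl, mink_smul]
  module

theorem mrefl_mrefl {n : Fin 3 → ℝ} (h : mink n n = 1) (x : Fin 3 → ℝ) :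
    mrefl n (mrefl n x) = x := by
  simp only [mrefl, mink_sub, mink_smul, h]
  module

theorem mink_mrefl {n : Fin 3 → ℝ} (h : mink n n = 1) (x y : Fin 3 → ℝ) :
    mink (mrefl n x) (mrefl n y) = mink x y := by
  have h1 : ∀ z, mink (mrefl n x) z = mink x z - (2 * mink n x) * mink n z := by
    intro z
    rw [mrefl, mink_comm _ z, mink_sub, mink_smul, mink_comm z x, mink_comm z n]
  rw [h1, mrefl, mink_sub, mink_sub, mink_smul, mink_smul, h, mink_comm x n]
  ring

theorem mrefl_self {n : Fin 3 → ℝ} (h : mink n n = 1) : mrefl n n = -n := by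
  simp only [mrefl, h]
  module

/-- the image of `α` under `k` alternating reflections, the first one in `β` -/
noncomputable def dihW (α β : Fin 3 → ℝ) : ℕ → Fin 3 → ℝ
  | 0 => α
  | k + 1 => mrefl (if Even k then β else α) (dihW α β k)

private theorem Lin_refl_b {α β : Fin 3 → ℝ} {θ : ℝ} (hβ : mink β β = 1)
    (h : mink α β = -cos θ) (u v : ℝ) :
    mrefl β (u • α + v • β) = u • α + (2 * cos θ * u - v) • β := by
  simp only [mrefl, mink_add, mink_smul, hβ, mink_comm β α, h]
  module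

private theorem Lin_refl_a {α β : Fin 3 → ℝ} {θ : ℝ} (hα : mink α α = 1)
    (h : mink α β = -cos θ) (u v : ℝ) :
    mrefl α (u • α + v • β) = (2 * cos θ * v - u) • α + v • β := by
  simp only [mrefl, mink_add, mink_smul, hα, h]
  module

private theorem Lin_sin_rec (x θ : ℝ) (hθ : sin θ ≠ 0) :
    2 * cos θ * (sin (x + θ) / sin θ) - sin x / sin θ = sin (x + 2 * θ) / sin θ := by
  have h1 : sin (x + 2 * θ) = 2 * cos θ * sin (x + θ) - sin x := by
    rw [sin_add x (2 * θ), sin_add x θ, cos_two_mul, sin_two_mul]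
    have := sin_sq_add_cos_sq θ
    ring
  rw [h1]
  field_simp

private theorem Lin_both {α β : Fin 3 → ℝ} {θ : ℝ} (hα : mink α α = 1) (hβ : mink β β = 1)
    (h : mink α β = -cos θ) (hθ : sin θ ≠ 0) (k : ℕ) :
    dihW α β (2 * k) =
        (sin ((2 * k + 1) * θ) / sin θ) • α + (sin ((2 * k) * θ) / sin θ) • β ∧
      dihW α β (2 * k + 1) =
        (sin ((2 * k + 1) * θ) / sin θ) • α + (sin ((2 * k + 2) * θ) / sin θ) • β := by
  have step : ∀ k : ℕ, dihW α β (2 * k) =
        (sin ((2 * k + 1) * θ) / sin θ) • α + (sin ((2 * k) * θ) / sin θ) • β →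
      dihW α β (2 * k + 1) =
        (sin ((2 * k + 1) * θ) / sin θ) • α + (sin ((2 * k + 2) * θ) / sin θ) • β := by
    intro k hk
    have he : Even (2 * k) := even_two_mul k
    rw [dihW, if_pos he, hk, Lin_refl_b hβ h]
    have := Lin_sin_rec ((2 * k) * θ) θ hθ
    have e1 : (2 * (k : ℝ)) * θ + θ = (2 * k + 1) * θ := by ring
    have e2 : (2 * (k : ℝ)) * θ + 2 * θ = (2 * k + 2) * θ := by ring
    rw [e1, e2] at this
    rw [this]
  induction k with
  | zero =>
    have h0 : dihW α β (2 * 0) =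
        (sin ((2 * ((0 : ℕ) : ℝ) + 1) * θ) / sin θ) • α +
          (sin ((2 * ((0 : ℕ) : ℝ)) * θ) / sin θ) • β := by
      simp [dihW, hθ]
    exact ⟨h0, step 0 h0⟩
  | succ k ih =>
    have ho : ¬ Even (2 * k + 1) := by
      rw [Nat.not_even_iff_odd]; exact odd_two_mul_add_one k
    have h0 : dihW α β (2 * (k + 1)) =
        (sin ((2 * ((k + 1 : ℕ) : ℝ) + 1) * θ) / sin θ) • α +
          (sin ((2 * ((k + 1 : ℕ) : ℝ)) * θ) / sin θ) • β := by
      rw [show 2 * (k + 1) = (2 * k + 1) + 1 by ring, dihW, if_neg ho, ih.2, Lin_refl_a hα h]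
      have := Lin_sin_rec ((2 * k + 1) * θ) θ hθ
      have e1 : (2 * (k : ℝ) + 1) * θ + θ = (2 * k + 2) * θ := by ring
      have e2 : (2 * (k : ℝ) + 1) * θ + 2 * θ = (2 * ((k + 1 : ℕ) : ℝ) + 1) * θ := by
        push_cast; ring
      have e3 : (2 * ((k + 1 : ℕ) : ℝ)) * θ = (2 * k + 2) * θ := by push_cast; ring
      rw [e1, e2] at this
      rw [this, e3]
    exact ⟨h0, step (k + 1) h0⟩

theorem dih_even {α β : Fin 3 → ℝ} {θ : ℝ} (hα : mink α α = 1) (hβ : mink β β = 1)
    (h : mink α β = -cos θ) (hθ : sin θ ≠ 0) (k : ℕ) :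
    dihW α β (2 * k) = (sin ((2 * k + 1) * θ) / sin θ) • α + (sin ((2 * k) * θ) / sin θ) • β :=
  (Lin_both hα hβ h hθ k).1

theorem dih_odd {α β : Fin 3 → ℝ} {θ : ℝ} (hα : mink α α = 1) (hβ : mink β β = 1)
    (h : mink α β = -cos θ) (hθ : sin θ ≠ 0) (k : ℕ) :
    dihW α β (2 * k + 1) =
      (sin ((2 * k + 1) * θ) / sin θ) • α + (sin ((2 * k + 2) * θ) / sin θ) • β :=
  (Lin_both hα hβ h hθ k).2

private theorem Lin_sin_pos {m : ℕ} (hm : 2 ≤ m) : 0 < sin (π / m) := by
  have hm' : (2 : ℝ) ≤ m := by exact_mod_cast hm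
  apply sin_pos_of_pos_of_lt_pi
  · exact div_pos pi_pos (by linarith)
  · rw [div_lt_iff₀ (by linarith)]
    nlinarith [pi_pos]

private theorem Lin_sin_nonneg {m j : ℕ} (hm : 2 ≤ m) (hj : j ≤ m) :
    0 ≤ sin ((j : ℝ) * (π / m)) / sin (π / m) := by
  have hm' : (2 : ℝ) ≤ m := by exact_mod_cast hm
  have hj' : (j : ℝ) ≤ m := by exact_mod_cast hj
  apply div_nonneg _ (Lin_sin_pos hm).le
  apply sin_nonneg_of_nonneg_of_le_pi
  · have := pi_pos
    positivity
  · rw [mul_div_assoc', div_le_iff₀ (by linarith)]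
    nlinarith [pi_pos]

/-- the words of length `k < m` give non negative combinations -/
theorem dih_pos {α β : Fin 3 → ℝ} {m : ℕ} (hm : 2 ≤ m) (hα : mink α α = 1) (hβ : mink β β = 1)
    (h : mink α β = -cos (π / m)) (k : ℕ) (hk : k < m) :
    ∃ u v : ℝ, 0 ≤ u ∧ 0 ≤ v ∧ dihW α β k = u • α + v • β := by
  obtain ⟨j, rfl | rfl⟩ := Nat.even_or_odd' k
  · refine ⟨_, _, ?_, ?_, dih_even hα hβ h (Lin_sin_pos hm).ne' j⟩
    · have := Lin_sin_nonneg (j := 2 * j + 1) hm (by omega)
      push_cast at this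
      exact this
    · have := Lin_sin_nonneg (j := 2 * j) hm (by omega)
      push_cast at this
      exact this
  · refine ⟨_, _, ?_, ?_, dih_odd hα hβ h (Lin_sin_pos hm).ne' j⟩
    · have := Lin_sin_nonneg (j := 2 * j + 1) hm (by omega)
      push_cast at this
      exact this
    · have := Lin_sin_nonneg (j := 2 * j + 2) hm (by omega)
      push_cast at this
      exact this

private theorem Lin_iter_alpha {α β : Fin 3 → ℝ} (k : ℕ) :
    (fun y => mrefl α (mrefl β y))^[k] α = dihW α β (2 * k) := by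
  induction k with
  | zero => rfl
  | succ k ih =>
    have he : Even (2 * k) := even_two_mul k
    have ho : ¬ Even (2 * k + 1) := by
      rw [Nat.not_even_iff_odd]; exact odd_two_mul_add_one k
    rw [Function.iterate_succ_apply', ih, show 2 * (k + 1) = (2 * k + 1) + 1 by ring, dihW,
      if_neg ho, dihW, if_pos he]

private theorem Lin_pow_alpha {α β : Fin 3 → ℝ} {m : ℕ} (hm : 2 ≤ m) (hα : mink α α = 1)
    (hβ : mink β β = 1) (h : mink α β = -cos (π / m)) :
    (fun y => mrefl α (mrefl β y))^[m] α = α := by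
  have hs := (Lin_sin_pos hm).ne'
  rw [Lin_iter_alpha, dih_even hα hβ h hs]
  have hm' : (m : ℝ) ≠ 0 := by
    have : (0 : ℝ) < m := by exact_mod_cast (by omega : 0 < m)
    exact this.ne'
  have e1 : (2 * (m : ℝ) + 1) * (π / m) = π / m + 2 * π := by
    field_simp
    ring
  have e2 : (2 * (m : ℝ)) * (π / m) = 2 * π := by
    field_simp
  rw [e1, e2, sin_add_two_pi, sin_two_pi, div_self hs]
  simp

private theorem Lin_iter_add {α β : Fin 3 → ℝ} (k : ℕ) (x y : Fin 3 → ℝ) :
    (fun y => mrefl α (mrefl β y))^[k] (x + y) =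
      (fun y => mrefl α (mrefl β y))^[k] x + (fun y => mrefl α (mrefl β y))^[k] y := by
  induction k with
  | zero => rfl
  | succ k ih =>
    simp only [Function.iterate_succ_apply', ih, mrefl_add]

private theorem Lin_iter_smul {α β : Fin 3 → ℝ} (k : ℕ) (c : ℝ) (x : Fin 3 → ℝ) :
    (fun y => mrefl α (mrefl β y))^[k] (c • x) =
      c • (fun y => mrefl α (mrefl β y))^[k] x := by
  induction k with
  | zero => rfl
  | succ k ih =>
    simp only [Function.iterate_succ_apply', ih, mrefl_smul]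

theorem dih_pow {α β : Fin 3 → ℝ} {m : ℕ} (hm : 2 ≤ m) (hα : mink α α = 1) (hβ : mink β β = 1)
    (h : mink α β = -cos (π / m)) (x : Fin 3 → ℝ) :
    (fun y => mrefl α (mrefl β y))^[m] x = x := by
  have hs := (Lin_sin_pos hm).ne'
  have hA := Lin_pow_alpha hm hα hβ h
  have hB' := Lin_pow_alpha (α := β) (β := α) hm hβ hα (by rw [mink_comm]; exact h)
  have hB : (fun y => mrefl α (mrefl β y))^[m] β = β := by
    have hinv : Function.LeftInverse (fun y => mrefl α (mrefl β y))
        (fun y => mrefl β (mrefl α y)) := by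
      intro y
      simp only [mrefl_mrefl hα, mrefl_mrefl hβ]
    have := hinv.iterate m β
    rw [hB'] at this
    exact this
  set a := mink α x with ha
  set b := mink β x with hb
  set c := cos (π / m) with hc
  have hsq : sin (π / m) ^ 2 = 1 - c ^ 2 := by
    have := sin_sq_add_cos_sq (π / m)
    rw [hc]; linarith
  have hne : 1 - c ^ 2 ≠ 0 := by
    rw [← hsq]; exact pow_ne_zero 2 hs
  obtain ⟨y, hy⟩ : ∃ y, y = x - ((a + b * c) / (1 - c ^ 2)) • α - ((b + a * c) / (1 - c ^ 2)) • β :=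
    ⟨_, rfl⟩
  have hx : x = ((a + b * c) / (1 - c ^ 2)) • α + ((b + a * c) / (1 - c ^ 2)) • β + y := by
    rw [hy]; module
  have y1 : mink α y = 0 := by
    rw [hy, mink_sub, mink_sub, mink_smul, mink_smul, hα, h, ← ha]
    field_simp
    ring
  have y2 : mink β y = 0 := by
    rw [hy, mink_sub, mink_sub, mink_smul, mink_smul, hβ, mink_comm β α, h, ← hb]
    field_simp
    ring
  have hfix : (fun y => mrefl α (mrefl β y)) y = y := by
    simp [mrefl, y1, y2]
  have hY : (fun y => mrefl α (mrefl β y))^[m] y = y := Function.iterate_fixed hfix m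
  conv_lhs => rw [hx]
  rw [Lin_iter_add, Lin_iter_add, Lin_iter_smul, Lin_iter_smul, hA, hB, hY, ← hx]

end MPbcd198.W
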