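import Pool.Agent.Lib.MP_bcd198_co.W.Cox

/-!
# JOB W/Pos: positivity of roots

* `pos` (J. Tits): if `ℓ (w s) > ℓ w` then `w α_s` is a non negative combination of the roots `α_i = side p q i`.
  Strong induction on `ℓ w`.  `ℓ w = 0`: `w = 1`.  Otherwise there is `t` with `ℓ (w t) < ℓ w`
  (`exists_rightDescent_of_ne_one`), `t ≠ s`.  Consider the numbers `k ≥ 1` such that there is `v` with
  `w = v * π (alternatingWord s t k)` and `ℓ v + k = ℓ w` (`alternatingWord s t k` has length `k` and its last letter is `t`):
  `k = 1`, `v = w t` is possible and `k ≤ ℓ w`; take the largest `k`.  Let `r` be the first letter of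
  `alternatingWord s t k`, `r'` the other element of `{s,t}` (`alternatingWord_succ'`: `r = if Even (k-1) then t else s`).
  - `ℓ (v r) > ℓ v`: otherwise `w = (v r) * π (tail)`, `ℓ w ≤ ℓ (v r) + (k - 1) < ℓ w`.
  - `ℓ (v r') > ℓ v`: otherwise `w = (v r') * π (r' :: alternatingWord s t k)` and `r' :: alternatingWord s t k = alternatingWord s t (k+1)`,
    `ℓ (v r') + (k + 1) = ℓ w`: contradiction to the maximality.
  - `k < m_st`: otherwise `alternatingWord s t k = (a list u of length k - m) ++ alternatingWord s t m` and
    `π (alternatingWord s t m) = π (alternatingWord t s m)` (`wordProd_braidWord_eq`) which ends in `s`, so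
    `w s = v * π u * π (alternatingWord t s m) * s` has length at most `ℓ v + (k - m) + (m - 1) < ℓ w`: contradiction.
  By induction `v α_s`, `v α_t` are non negative combinations, `w α_s = v (π (alternatingWord s t k) α_s) = v (dihW α_s α_t k)`
  (`geo_alt`: induction on `k` with `alternatingWord_succ'`) and `dih_pos`.
-/

set_option autoImplicit false

namespace MPbcd198.W

open Real CoxeterSystem

private theorem Pos_split (s t : Fin 3) (m : ℕ) : ∀ d : ℕ,
    ∃ u : List (Fin 3), u.length = d ∧ alternatingWord s t (m + d) = u ++ alternatingWord s t m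
  | 0 => ⟨[], rfl, rfl⟩
  | d + 1 => by
    obtain ⟨u, hu, h⟩ := Pos_split s t m d
    refine ⟨(if Even (m + d) then t else s) :: u, by simp [hu], ?_⟩
    rw [← add_assoc, alternatingWord_succ', h, List.cons_append]

theorem pos {p q : ℕ} (hyp : Hyp p q) (w : Tri p q) (s : Fin 3)
    (h : ¬ (triCS hyp).IsRightDescent w s) :
    ∃ c : Fin 3 → ℝ, (∀ i, 0 ≤ c i) ∧ geo hyp w (side p q s) = ∑ i, c i • side p q i := by
  obtain ⟨n, hn⟩ : ∃ n, (triCS hyp).length w = n := ⟨_, rfl⟩
  induction n using Nat.strong_induction_on generalizing w s with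
  | _ n ih =>
  by_cases hw : w = 1
  · refine ⟨Pi.single s 1, fun i => ?_, ?_⟩
    · by_cases hi : i = s
      · subst hi; simp
      · simp [Pi.single_eq_of_ne hi]
    · subst hw
      rw [map_one, Finset.sum_eq_single s]
      · simp
      · intro b _ hb
        simp [Pi.single_eq_of_ne hb]
      · simp
  obtain ⟨t, ht⟩ := (triCS hyp).exists_rightDescent_of_ne_one hw
  have hst : s ≠ t := by
    rintro rfl
    exact h ht
  -- the numbers `k`
  obtain ⟨k, ⟨v, hv, hl⟩, hmax⟩ : ∃ k : ℕ,
      (∃ v : Tri p q, w = v * (triCS hyp).wordProd (alternatingWord s t (k + 1)) ∧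
        (triCS hyp).length v + (k + 1) = (triCS hyp).length w) ∧
      ¬ (∃ v : Tri p q, w = v * (triCS hyp).wordProd (alternatingWord s t (k + 1 + 1)) ∧
        (triCS hyp).length v + (k + 1 + 1) = (triCS hyp).length w) := by
    by_contra hcon
    push Not at hcon
    have hall : ∀ k : ℕ,
        ∃ v : Tri p q, w = v * (triCS hyp).wordProd (alternatingWord s t (k + 1)) ∧
          (triCS hyp).length v + (k + 1) = (triCS hyp).length w := by
      intro k
      induction k with
      | zero =>
        refine ⟨w * (triCS hyp).simple t, ?_, ?_⟩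
        · rw [alternatingWord_succ']
          simp [alternatingWord, mul_assoc]
        · exact ((triCS hyp).isRightDescent_iff).1 ht
      | succ k ihk => exact hcon k ihk
    obtain ⟨v, -, hv⟩ := hall ((triCS hyp).length w)
    omega
  -- the first letter is an ascent
  have h1 : ¬ (triCS hyp).IsRightDescent v (if Even k then t else s) := by
    intro hd
    have hd' := ((triCS hyp).isRightDescent_iff).1 hd
    have hw2 : w = (v * (triCS hyp).simple (if Even k then t else s)) *
        (triCS hyp).wordProd (alternatingWord s t k) := by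
      rw [hv, alternatingWord_succ', wordProd_cons, mul_assoc]
    have hle := (triCS hyp).length_mul_le (v * (triCS hyp).simple (if Even k then t else s))
      ((triCS hyp).wordProd (alternatingWord s t k))
    rw [← hw2] at hle
    have hle2 := (triCS hyp).length_wordProd_le (alternatingWord s t k)
    rw [length_alternatingWord] at hle2
    omega
  -- the other letter is an ascent
  have h2 : ¬ (triCS hyp).IsRightDescent v (if Even (k + 1) then t else s) := by
    intro hd
    have hd' := ((triCS hyp).isRightDescent_iff).1 hd
    refine hmax ⟨v * (triCS hyp).simple (if Even (k + 1) then t else s), ?_, by omega⟩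
    rw [alternatingWord_succ', wordProd_cons, hv, mul_assoc v, simple_mul_simple_cancel_left]
  have hboth : ¬ (triCS hyp).IsRightDescent v s ∧ ¬ (triCS hyp).IsRightDescent v t := by
    by_cases hk : Even k
    · have hk' : ¬ Even (k + 1) := by simpa [Nat.even_add_one] using hk
      rw [if_pos hk] at h1
      rw [if_neg hk'] at h2
      exact ⟨h2, h1⟩
    · have hk' : Even (k + 1) := by simpa [Nat.even_add_one] using hk
      rw [if_neg hk] at h1
      rw [if_pos hk'] at h2
      exact ⟨h1, h2⟩
  -- `k + 1 < m`
  have hM : (triM hyp) s t = mm p q s t := rfl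
  have hm2 : 2 ≤ mm p q s t := by
    have hp := hyp.hp
    have hq := hyp.hq
    revert hst
    fin_cases s <;> fin_cases t <;> simp [mm] <;> omega
  have hkm : k + 1 < mm p q s t := by
    by_contra hcon
    push Not at hcon
    obtain ⟨d, hd⟩ := Nat.exists_eq_add_of_le hcon
    obtain ⟨m', hm'⟩ : ∃ m', mm p q s t = m' + 1 := ⟨mm p q s t - 1, by omega⟩
    obtain ⟨u, hu, hsplit⟩ := Pos_split s t (mm p q s t) d
    have hbraid := (triCS hyp).wordProd_braidWord_eq s t
    have hsym : (triM hyp) t s = (triM hyp) s t := (triM hyp).symmetric t s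
    unfold braidWord at hbraid
    rw [hsym, hM] at hbraid
    rw [hd, hsplit, wordProd_append, hbraid, hm', alternatingWord_succ, wordProd_concat] at hv
    have hws : w * (triCS hyp).simple s =
        v * ((triCS hyp).wordProd u * (triCS hyp).wordProd (alternatingWord s t m')) := by
      rw [hv]
      simp only [mul_assoc, simple_mul_simple_self, mul_one]
    apply h
    unfold IsRightDescent
    rw [hws]
    have e1 := (triCS hyp).length_mul_le v
      ((triCS hyp).wordProd u * (triCS hyp).wordProd (alternatingWord s t m'))
    have e2 := (triCS hyp).length_mul_le ((triCS hyp).wordProd u)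
      ((triCS hyp).wordProd (alternatingWord s t m'))
    have e3 := (triCS hyp).length_wordProd_le u
    have e4 := (triCS hyp).length_wordProd_le (alternatingWord s t m')
    rw [length_alternatingWord] at e4
    omega
  -- conclusion
  have hlt : (triCS hyp).length v < n := by omega
  obtain ⟨c, hc, hcs⟩ := ih _ hlt v s hboth.1 rfl
  obtain ⟨d, hd, hdt⟩ := ih _ hlt v t hboth.2 rfl
  obtain ⟨x, y, hx, hy, hxy⟩ := dih_pos hm2 (gram_self hyp s) (gram_self hyp t)
    (gram_ne hyp s t hst) (k + 1) hkm
  refine ⟨fun i => x * c i + y * d i, fun i => add_nonneg (mul_nonneg hx (hc i))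
    (mul_nonneg hy (hd i)), ?_⟩
  rw [hv, map_mul, LinearEquiv.mul_apply, geo_alt, hxy, map_add, map_smul, map_smul, hcs, hdt,
    Finset.smul_sum, Finset.smul_sum, ← Finset.sum_add_distrib]
  refine Finset.sum_congr rfl fun i _ => ?_
  rw [smul_smul, smul_smul, ← add_smul]

end MPbcd198.W
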