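import Pool.Agent.Lib.MP_bcd198_co.W.Lin

/-!
# JOB W/Rep: the Gram matrix of the sides and the representation of the triangle group

* `mm p q` is the Coxeter matrix.  `gram`: with `C = cos (π/p)`, `s = sin (π/q) > 0`, `C / s ≥ 1`:
  `C = cos (π/p) ≥ cos (π/2 - π/q) = sin (π/q)` because `π/p + π/q < π/2` (from `hyp.hk`) and `cos` is
  decreasing on `[0, π]`; the inequality is strict (`hs : 1 < (C/s)^2`).  Then all 9 entries by
  computation (`Real.sq_sqrt`, `sin_sq_add_cos_sq`, `cos (π/2) = 0`).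
* `side_v0`: `mink v0 (side 0) = √((C/s)^2 - 1) > 0`, `mink v0 (side 1) = mink v0 (side 2) = 0`.
* `geo`: `PresentedGroup.toGroup` with `f i` = the linear equivalence `mrefl (side i)`
  (`LinearEquiv.ofInvolutive` or build by hand); the relators: `mrefl_mrefl`, `dih_pow` (for `m = p, q, 2`).
-/

set_option autoImplicit false

namespace MPbcd198.W

open Real

/-- the Coxeter matrix of the triangle group `[p,q]` -/
def mm (p q : ℕ) : Fin 3 → Fin 3 → ℕ := ![![1, p, 2], ![p, 1, q], ![2, q, 1]]

private theorem Rep_angle {p q : ℕ} (hyp : Hyp p q) :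
    (3 : ℝ) ≤ p ∧ (3 : ℝ) ≤ q ∧ π / p + π / q < π / 2 := by
  obtain ⟨hp, hq, hk⟩ := hyp
  obtain ⟨p', rfl⟩ := Nat.exists_eq_add_of_le' (show 2 ≤ p by omega)
  obtain ⟨q', rfl⟩ := Nat.exists_eq_add_of_le' (show 2 ≤ q by omega)
  rw [Nat.add_sub_cancel, Nat.add_sub_cancel] at hk
  have hk' : (4 : ℝ) < p' * q' := by exact_mod_cast hk
  refine ⟨by exact_mod_cast hp, by exact_mod_cast hq, ?_⟩
  have h1 : (0 : ℝ) < p' + 2 := by positivity
  have h2 : (0 : ℝ) < q' + 2 := by positivity
  push_cast
  have h3 : π / 2 - (π / (p' + 2) + π / (q' + 2)) =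
      π * (p' * q' - 4) / (2 * (p' + 2) * (q' + 2)) := by
    field_simp
    ring
  have h4 : 0 < π * (p' * q' - 4) / (2 * (p' + 2) * (q' + 2)) :=
    div_pos (mul_pos pi_pos (by linarith)) (by positivity)
  linarith

private theorem Rep_sin_pos {p q : ℕ} (hyp : Hyp p q) : 0 < sin (π / q) := by
  obtain ⟨hp, hq, -⟩ := Rep_angle hyp
  apply sin_pos_of_pos_of_lt_pi
  · exact div_pos pi_pos (by linarith)
  · rw [div_lt_iff₀ (by linarith)]
    nlinarith [pi_pos]

theorem side_gt {p q : ℕ} (hyp : Hyp p q) : 1 < (cos (π / p) / sin (π / q)) ^ 2 := by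
  obtain ⟨hp, hq, h⟩ := Rep_angle hyp
  have hs := Rep_sin_pos hyp
  have h1 : sin (π / q) < cos (π / p) := by
    rw [← cos_pi_div_two_sub]
    have hp0 : 0 ≤ π / p := (div_pos pi_pos (by linarith)).le
    apply cos_lt_cos_of_nonneg_of_le_pi hp0
    · have : 0 < π / q := div_pos pi_pos (by linarith)
      linarith [pi_pos]
    · linarith
  have h2 : 1 < cos (π / p) / sin (π / q) := by
    rw [lt_div_iff₀ hs]
    linarith
  nlinarith

theorem gram_self {p q : ℕ} (hyp : Hyp p q) (i : Fin 3) : mink (side p q i) (side p q i) = 1 := by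
  have h1 := side_gt hyp
  have h2 := sq_sqrt (show 0 ≤ (cos (π / p) / sin (π / q)) ^ 2 - 1 by linarith)
  have h3 := sin_sq_add_cos_sq (π / q)
  fin_cases i
  · simp only [mink, side, Fin.zero_eta, Matrix.cons_val_zero, Matrix.cons_val_one,
      Matrix.cons_val]
    linarith
  · simp only [mink, side, Fin.mk_one, Matrix.cons_val_zero, Matrix.cons_val_one,
      Matrix.cons_val]
    linarith
  · simp [mink, side]

theorem gram_ne {p q : ℕ} (hyp : Hyp p q) (i j : Fin 3) (h : i ≠ j) :
    mink (side p q i) (side p q j) = -cos (π / mm p q i j) := by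
  have hs := (Rep_sin_pos hyp).ne'
  have h1 : cos (π / p) / sin (π / q) * sin (π / q) = cos (π / p) := div_mul_cancel₀ _ hs
  fin_cases i <;> fin_cases j
  · exact absurd rfl h
  · simp only [mink, side, mm, Fin.zero_eta, Fin.mk_one, Matrix.cons_val_zero,
      Matrix.cons_val_one, Matrix.cons_val]
    linarith
  · simp [mink, side, mm]
  · simp only [mink, side, mm, Fin.zero_eta, Fin.mk_one, Matrix.cons_val_zero,
      Matrix.cons_val_one, Matrix.cons_val]
    linarith
  · exact absurd rfl h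
  · simp [mink, side, mm]
  · simp [mink, side, mm]
  · simp [mink, side, mm]
  · exact absurd rfl h

theorem v0_side_zero {p q : ℕ} (hyp : Hyp p q) : 0 < mink v0 (side p q 0) := by
  have h1 := side_gt hyp
  have h2 : 0 < √((cos (π / p) / sin (π / q)) ^ 2 - 1) := sqrt_pos.2 (by linarith)
  simpa [mink, side, v0] using h2

theorem v0_side_one (p q : ℕ) : mink v0 (side p q 1) = 0 := by
  simp [mink, side, v0]

theorem v0_side_two (p q : ℕ) : mink v0 (side p q 2) = 0 := by
  simp [mink, side, v0]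

/-- the reflection in the side `i` as a linear equivalence -/
noncomputable def sideE {p q : ℕ} (hyp : Hyp p q) (i : Fin 3) :
    (Fin 3 → ℝ) ≃ₗ[ℝ] (Fin 3 → ℝ) where
  toFun := mrefl (side p q i)
  invFun := mrefl (side p q i)
  map_add' := mrefl_add _
  map_smul' c x := mrefl_smul _ x c
  left_inv := mrefl_mrefl (gram_self hyp i)
  right_inv := mrefl_mrefl (gram_self hyp i)

private theorem Rep_pow {p q : ℕ} (hyp : Hyp p q) (i j : Fin 3) (n : ℕ) (x : Fin 3 → ℝ) :
    ((sideE hyp i * sideE hyp j) ^ n : (Fin 3 → ℝ) ≃ₗ[ℝ] (Fin 3 → ℝ)) x =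
      (fun y => mrefl (side p q i) (mrefl (side p q j) y))^[n] x := by
  induction n with
  | zero => rfl
  | succ n ih =>
    rw [pow_succ', Function.iterate_succ_apply', ← ih]
    rfl

private theorem Rep_dih {p q : ℕ} (hyp : Hyp p q) (i j : Fin 3) (h : i ≠ j)
    (hm : 2 ≤ mm p q i j) : (sideE hyp i * sideE hyp j) ^ (mm p q i j) = 1 := by
  apply LinearEquiv.ext
  intro x
  rw [Rep_pow]
  exact dih_pow hm (gram_self hyp i) (gram_self hyp j) (gram_ne hyp i j h) x

private theorem Rep_sq {p q : ℕ} (hyp : Hyp p q) (i : Fin 3) : sideE hyp i ^ 2 = 1 := by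
  apply LinearEquiv.ext
  intro x
  rw [pow_two]
  exact mrefl_mrefl (gram_self hyp i) x

theorem sideE_rels {p q : ℕ} (hyp : Hyp p q) :
    ∀ r ∈ triRels p q, FreeGroup.lift (sideE hyp) r = 1 := by
  have hp := hyp.hp
  have hq := hyp.hq
  intro r hr
  simp only [triRels, Set.mem_insert_iff, Set.mem_singleton_iff] at hr
  rcases hr with rfl | rfl | rfl | rfl | rfl | rfl
  · rw [map_pow, FreeGroup.lift_apply_of]
    exact Rep_sq hyp 0
  · rw [map_pow, FreeGroup.lift_apply_of]
    exact Rep_sq hyp 1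
  · rw [map_pow, FreeGroup.lift_apply_of]
    exact Rep_sq hyp 2
  · rw [map_pow, map_mul, FreeGroup.lift_apply_of, FreeGroup.lift_apply_of]
    exact Rep_dih hyp 0 1 (by decide) (show 2 ≤ p by omega)
  · rw [map_pow, map_mul, FreeGroup.lift_apply_of, FreeGroup.lift_apply_of]
    exact Rep_dih hyp 1 2 (by decide) (show 2 ≤ q by omega)
  · rw [map_pow, map_mul, FreeGroup.lift_apply_of, FreeGroup.lift_apply_of]
    exact Rep_dih hyp 0 2 (by decide) (show 2 ≤ 2 by omega)

/-- the geometric representation -/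
noncomputable def geo {p q : ℕ} (hyp : Hyp p q) : Tri p q →* ((Fin 3 → ℝ) ≃ₗ[ℝ] (Fin 3 → ℝ)) :=
  PresentedGroup.toGroup (sideE_rels hyp)

theorem geo_gen {p q : ℕ} (hyp : Hyp p q) (i : Fin 3) (x : Fin 3 → ℝ) :
    geo hyp (gen p q i) x = mrefl (side p q i) x := by
  have h : geo hyp (gen p q i) = sideE hyp i := PresentedGroup.toGroup.of (sideE_rels hyp)
  rw [h]
  rfl

private theorem Rep_gen_sq (p q : ℕ) (i : Fin 3) : gen p q i * gen p q i = 1 := by
  have h : (PresentedGroup.mk (triRels p q)) (FreeGroup.of i ^ 2) = 1 :=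
    PresentedGroup.one_of_mem (by fin_cases i <;> simp [triRels])
  simpa [pow_two, gen, PresentedGroup.of] using h

private theorem Rep_exists_list (p q : ℕ) (g : Tri p q) :
    ∃ w : List (Fin 3), (w.map (gen p q)).prod = g := by
  have hg : g ∈ Subgroup.closure (Set.range (gen p q)) := by
    have : Subgroup.closure (Set.range (gen p q)) = ⊤ := PresentedGroup.closure_range_of (triRels p q)
    rw [this]
    exact Subgroup.mem_top g
  induction hg using Subgroup.closure_induction with
  | mem x hx =>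
    obtain ⟨i, rfl⟩ := hx
    exact ⟨[i], by simp⟩
  | one => exact ⟨[], rfl⟩
  | mul x y _ _ hx hy =>
    obtain ⟨w, rfl⟩ := hx
    obtain ⟨w', rfl⟩ := hy
    exact ⟨w ++ w', by simp⟩
  | inv x _ hx =>
    obtain ⟨w, rfl⟩ := hx
    refine ⟨w.reverse, ?_⟩
    rw [List.prod_inv_reverse, List.map_reverse, List.map_map]
    congr 2
    apply List.map_congr_left
    intro i _
    rw [Function.comp_apply, eq_inv_iff_mul_eq_one]
    exact Rep_gen_sq p q i

private theorem Rep_geo_list {p q : ℕ} (hyp : Hyp p q) (w : List (Fin 3)) (x : Fin 3 → ℝ) :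
    geo hyp (w.map (gen p q)).prod x = wact p q w x := by
  induction w with
  | nil =>
    rw [List.map_nil, List.prod_nil, map_one]
    rfl
  | cons i w ih =>
    rw [List.map_cons, List.prod_cons, map_mul, LinearEquiv.mul_apply, geo_gen, ih]
    rfl

theorem geo_mink {p q : ℕ} (hyp : Hyp p q) (g : Tri p q) (x y : Fin 3 → ℝ) :
    mink (geo hyp g x) (geo hyp g y) = mink x y := by
  obtain ⟨w, rfl⟩ := Rep_exists_list p q g
  rw [Rep_geo_list, Rep_geo_list]
  induction w with
  | nil => rfl
  | cons i w ih =>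
    change mink (mrefl (side p q i) (wact p q w x)) (mrefl (side p q i) (wact p q w y)) = _
    rw [mink_mrefl (gram_self hyp i), ih]

theorem geo_list {p q : ℕ} (hyp : Hyp p q) (w : List (Fin 3)) (x : Fin 3 → ℝ) :
    geo hyp (w.map (gen p q)).prod x = wact p q w x := by
  exact Rep_geo_list hyp w x

/-- every element of the triangle group is a product of generators -/
theorem exists_list (p q : ℕ) (g : Tri p q) : ∃ w : List (Fin 3), (w.map (gen p q)).prod = g := by
  exact Rep_exists_list p q g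

end MPbcd198.W
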