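import Pool.Agent.Lib.MP_bcd198_co.W.Pos

/-!
# JOB W/Stab: the stabiliser of the vertex `v0` is `⟨b, c⟩`

* `stab_of`: `mrefl (side 1) v0 = v0 = mrefl (side 2) v0` (`v0_side_one`, `v0_side_two`), closure induction.
* `mem_of_stab`: let `geo w v0 = v0`.  Choose `w' ∈ w ⟨b,c⟩` of minimal length (`WellFounded.min` or
  `Nat.find`); `geo w' v0 = v0` and it suffices that `w' = 1`.  Otherwise there is `t` with
  `ℓ (w' t) < ℓ w'`; `t = 0` because of the minimality (`w' t ∈ w ⟨b,c⟩` for `t = 1, 2`).  `u = w' * gen 0` has no right descent `0`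
  (`isRightDescent_iff_not_isRightDescent_mul`), so `geo u α_0 = ∑ c_i α_i` with `c_i ≥ 0` by `pos`, and
  `geo w' α_0 = geo u (geo (gen 0) α_0) = - geo u α_0` (`mrefl_self`).  So
  `mink v0 α_0 = mink (geo w' v0) (geo w' α_0) = mink v0 (geo w' α_0) = - ∑ c_i mink v0 α_i = - c_0 mink v0 α_0`
  and `mink v0 α_0 > 0`: contradiction.
-/

set_option autoImplicit false

namespace MPbcd198.W

theorem stab_of {p q : ℕ} (hyp : Hyp p q) {w : Tri p q} (h : w ∈ vSub p q) :
    geo hyp w v0 = v0 := by
  induction h using Subgroup.closure_induction with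
  | mem x hx =>
    rcases hx with rfl | rfl
    · rw [geo_gen]
      simp [mrefl, mink_comm _ v0, v0_side_one]
    · rw [geo_gen]
      simp [mrefl, mink_comm _ v0, v0_side_two]
  | one => simp
  | mul x y _ _ hx hy =>
    rw [map_mul]
    change geo hyp x (geo hyp y v0) = v0
    rw [hy, hx]
  | inv x _ hx =>
    rw [map_inv]
    change (geo hyp x).symm v0 = v0
    rw [LinearEquiv.symm_apply_eq]
    exact hx.symm

theorem mem_of_stab {p q : ℕ} (hyp : Hyp p q) {w : Tri p q} (h : geo hyp w v0 = v0) :
    w ∈ vSub p q := by
  induction hn : (triCS hyp).length w using Nat.strong_induction_on generalizing w with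
  | _ n ih =>
    by_cases hw : w = 1
    · rw [hw]; exact one_mem _
    obtain ⟨t, ht⟩ := (triCS hyp).exists_rightDescent_of_ne_one hw
    by_cases ht0 : t = 0
    · subst t
      exfalso
      have hu := ((triCS hyp).isRightDescent_iff_not_isRightDescent_mul).mp ht
      obtain ⟨c, hc, he⟩ := pos hyp _ 0 hu
      rw [triCS_simple] at he
      have h1 : geo hyp (w * gen p q 0) (side p q 0) = - geo hyp w (side p q 0) := by
        rw [map_mul]
        change geo hyp w (geo hyp (gen p q 0) (side p q 0)) = _
        rw [geo_gen, mrefl_self (gram_self hyp 0), map_neg]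
      rw [h1] at he
      have h2 : mink v0 (side p q 0) = mink v0 (geo hyp w (side p q 0)) := by
        conv_rhs => rw [← h]
        rw [geo_mink]
      have h3 : geo hyp w (side p q 0) = (-1 : ℝ) • ∑ i, c i • side p q i := by
        rw [← he]; simp
      rw [h3, mink_smul, mink_sum, Fin.sum_univ_three, v0_side_one, v0_side_two] at h2
      have h4 := v0_side_zero hyp
      have h5 := mul_nonneg (hc 0) h4.le
      linarith
    · have hgen : gen p q t ∈ vSub p q := by
        have : t = 1 ∨ t = 2 := by
          fin_cases t <;> simp_all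
        rcases this with rfl | rfl
        · exact Subgroup.subset_closure (by simp)
        · exact Subgroup.subset_closure (by simp)
      have hlt : (triCS hyp).length (w * gen p q t) < n := by
        have := ht
        unfold CoxeterSystem.IsRightDescent at this
        rw [triCS_simple, hn] at this
        exact this
      have hst : geo hyp (w * gen p q t) v0 = v0 := by
        rw [map_mul]
        change geo hyp w (geo hyp (gen p q t) v0) = v0
        rw [stab_of hyp hgen, h]
      have := ih _ hlt hst rfl
      have h6 : w = w * gen p q t * (gen p q t)⁻¹ := by group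
      rw [h6]
      exact mul_mem this (inv_mem hgen)

end MPbcd198.W
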